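import Mathlib
import Pool.Agent.Helper61.FR.Circle

/-!
# Lebesgue phases (project LP): definitions

`cavg M N m x` is the average of the character `fourier m` over the points `2 ^ i * 3 ^ k * x`,
`i < M`, `k < N`, of the circle (`Pool.Agent.Helper61.FR.Circle`).
-/

set_option autoImplicit false

open MeasureTheory Finset

namespace Helper75.LP

open Pool.Agent.Helper61.FR

/-- the circle -/
abbrev Tor := AddCircle (1 : ℝ)

/-- probability measures which dominate one half of Lebesgue measure -/
def Half (ν : Measure Tor) : Prop := IsProbabilityMeasure ν ∧ volume ≤ (2 : ENNReal) • ν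

/-- Points at which the average over the box `M q × 2 ^ q` is, up to `1 / (n + 1)` on the characters
of frequency at most `n`, at least one half of Lebesgue measure. -/
def Ph (M : ℕ → ℕ) (n q : ℕ) : Set Tor :=
  {x | ∃ ν : Measure Tor, Half ν ∧ ∀ m : ℤ, |m| ≤ n →
    ‖cavg (M q) (2 ^ q) m x - ∫ y, (fourier m y : ℂ) ∂ν‖ < 1 / (n + 1)}

/-- the map `x ↦ s x` on pairs -/
def T2 (s : ℕ) : Tor × Tor → Tor × Tor := fun p => (s • p.1, s • p.2)

end Helper75.LP
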