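import Mathlib
import Pool.Agent.Helper75.LP.Defs

/-!
# Lebesgue phases: elementary properties of the sets `Ph`
-/

set_option autoImplicit false

open MeasureTheory Finset Filter Topology

namespace Helper75.LP

open Pool.Agent.Helper61.FR

lemma norm_fourier_tor (m : ℤ) (x : Tor) : ‖(fourier m x : ℂ)‖ = 1 := by
  rw [fourier_apply]; exact Circle.norm_coe _

lemma isOpen_Ph (M : ℕ → ℕ) (n q : ℕ) : IsOpen (Ph M n q) := by
  have e1 : Ph M n q = ⋃ ν : Measure Tor, ⋃ (_ : Half ν), ⋂ m ∈ (Finset.Icc (-(n : ℤ)) n),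
      {x | ‖cavg (M q) (2 ^ q) m x - ∫ y, (fourier m y : ℂ) ∂ν‖ < 1 / (n + 1)} := by
    ext x
    simp only [Ph, Set.mem_setOf_eq, Set.mem_iUnion, Set.mem_iInter, Finset.mem_Icc, exists_prop,
      abs_le]
  rw [e1]
  refine isOpen_iUnion fun ν => isOpen_iUnion fun _ => isOpen_biInter_finset fun m _ => ?_
  exact isOpen_lt ((continuous_cavg _ _ _).sub continuous_const).norm continuous_const

lemma Ph_anti (M : ℕ → ℕ) {n n' : ℕ} (h : n ≤ n') (q : ℕ) : Ph M n' q ⊆ Ph M n q := by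
  rintro x ⟨ν, hν, hx⟩
  refine ⟨ν, hν, fun m hm => (hx m (hm.trans (by exact_mod_cast h))).trans_le ?_⟩
  have h1 : (n : ℝ) ≤ n' := by exact_mod_cast h
  have h2 : (0 : ℝ) ≤ n := Nat.cast_nonneg _
  apply one_div_le_one_div_of_le (by positivity) (by linarith)

lemma cavg_two (M N : ℕ) (m : ℤ) (hM : 1 ≤ M) (hN : 1 ≤ N) (x : Tor) :
    ‖cavg M N m ((2 : ℕ) • x) - cavg M N m x‖ ≤ 2 / M := by
  have h1 : ∀ i k : ℕ, (fourier (m * (2 ^ i * 3 ^ k)) ((2 : ℕ) • x) : ℂ) =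
      fourier (m * (2 ^ (i + 1) * 3 ^ k)) x := by
    intro i k
    rw [fourier_apply, fourier_apply]
    congr 2
    rw [← natCast_zsmul, smul_smul]
    congr 1
    push_cast
    ring
  unfold cavg
  simp only [h1]
  set g : ℕ → ℂ := fun i => ∑ k ∈ range N, (fourier (m * (2 ^ i * 3 ^ k)) x : ℂ) with hg
  have hg1 : ∀ i, ‖g i‖ ≤ N := by
    intro i
    refine (norm_sum_le _ _).trans ?_
    simp [norm_fourier_tor]
  have h2 : ∑ i ∈ range M, g (i + 1) - ∑ i ∈ range M, g i = g M - g 0 := by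
    rw [← sum_sub_distrib, sum_range_sub]
  rw [← sub_div]
  change ‖(∑ i ∈ range M, g (i + 1) - ∑ i ∈ range M, g i) / _‖ ≤ _
  have hM0 : (0 : ℝ) < M := by exact_mod_cast hM
  have hN0 : (0 : ℝ) < N := by exact_mod_cast hN
  rw [h2, norm_div, norm_mul, Complex.norm_natCast, Complex.norm_natCast,
    div_le_div_iff₀ (by positivity) hM0]
  have h3 := (norm_sub_le (g M) (g 0)).trans (add_le_add (hg1 M) (hg1 0))
  nlinarith

lemma cavg_three (M N : ℕ) (m : ℤ) (hM : 1 ≤ M) (hN : 1 ≤ N) (x : Tor) :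
    ‖cavg M N m ((3 : ℕ) • x) - cavg M N m x‖ ≤ 2 / N := by
  have h1 : ∀ i k : ℕ, (fourier (m * (2 ^ i * 3 ^ k)) ((3 : ℕ) • x) : ℂ) =
      fourier (m * (2 ^ i * 3 ^ (k + 1))) x := by
    intro i k
    rw [fourier_apply, fourier_apply]
    congr 2
    rw [← natCast_zsmul, smul_smul]
    congr 1
    push_cast
    ring
  unfold cavg
  simp only [h1]
  rw [sum_comm, sum_comm (s := range M) (t := range N)
    (f := fun i k => (fourier (m * (2 ^ i * 3 ^ k)) x : ℂ))]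
  set g : ℕ → ℂ := fun k => ∑ i ∈ range M, (fourier (m * (2 ^ i * 3 ^ k)) x : ℂ) with hg
  have hg1 : ∀ i, ‖g i‖ ≤ M := by
    intro i
    refine (norm_sum_le _ _).trans ?_
    simp [norm_fourier_tor]
  have h2 : ∑ i ∈ range N, g (i + 1) - ∑ i ∈ range N, g i = g N - g 0 := by
    rw [← sum_sub_distrib, sum_range_sub]
  rw [← sub_div]
  change ‖(∑ i ∈ range N, g (i + 1) - ∑ i ∈ range N, g i) / _‖ ≤ _
  have hM0 : (0 : ℝ) < M := by exact_mod_cast hM
  have hN0 : (0 : ℝ) < N := by exact_mod_cast hN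
  rw [h2, norm_div, norm_mul, Complex.norm_natCast, Complex.norm_natCast,
    div_le_div_iff₀ (by positivity) hN0]
  have h3 := (norm_sub_le (g N) (g 0)).trans (add_le_add (hg1 N) (hg1 0))
  nlinarith

/-- points which are eventually outside the phases of level `n` -/
def En (M : ℕ → ℕ) (n : ℕ) : Set Tor :=
  {x | ∃ Q : ℕ, ∀ q, Q ≤ q → ∀ i, i ≤ 2 ^ q → (2 ^ i : ℕ) • x ∉ Ph M n q}

lemma measurableSet_good (M : ℕ → ℕ) (n Q : ℕ) :
    MeasurableSet {x : Tor | ∀ q, Q ≤ q → ∀ i, i ≤ 2 ^ q → (2 ^ i : ℕ) • x ∉ Ph M n q} := by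
  have e1 : {x : Tor | ∀ q, Q ≤ q → ∀ i, i ≤ 2 ^ q → (2 ^ i : ℕ) • x ∉ Ph M n q} =
      ⋂ q : ℕ, ⋂ (_ : Q ≤ q), ⋂ i : ℕ, ⋂ (_ : i ≤ 2 ^ q),
        (fun x : Tor => (2 ^ i : ℕ) • x) ⁻¹' (Ph M n q)ᶜ := by
    ext x
    simp only [Set.mem_setOf_eq, Set.mem_iInter, Set.mem_preimage, Set.mem_compl_iff]
  rw [e1]
  refine MeasurableSet.iInter fun q => MeasurableSet.iInter fun _ => MeasurableSet.iInter fun i =>
    MeasurableSet.iInter fun _ => ?_
  exact (continuous_nsmul (2 ^ i : ℕ)).measurable (isOpen_Ph M n q).measurableSet.compl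

lemma measurableSet_En (M : ℕ → ℕ) (n : ℕ) : MeasurableSet (En M n) := by
  have e1 : En M n = ⋃ Q : ℕ,
      {x : Tor | ∀ q, Q ≤ q → ∀ i, i ≤ 2 ^ q → (2 ^ i : ℕ) • x ∉ Ph M n q} := by
    ext x
    simp only [En, Set.mem_setOf_eq, Set.mem_iUnion]
  rw [e1]
  exact MeasurableSet.iUnion fun Q => measurableSet_good M n Q

lemma En_mono (M : ℕ → ℕ) {n n' : ℕ} (h : n ≤ n') : En M n ⊆ En M n' := by
  rintro x ⟨Q, hQ⟩
  exact ⟨Q, fun q hq i hi hx => hQ q hq i hi (Ph_anti M h q hx)⟩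

/-- slack: a point whose averages are close to those of a point in a phase -/
lemma Ph_close (M : ℕ → ℕ) (n q : ℕ) (x y : Tor) (hy : y ∈ Ph M (2 * n + 1) q)
    (h : ∀ m : ℤ, ‖cavg (M q) (2 ^ q) m y - cavg (M q) (2 ^ q) m x‖ ≤ 1 / (2 * (n + 1))) :
    x ∈ Ph M n q := by
  obtain ⟨ν, hν, hm⟩ := hy
  refine ⟨ν, hν, fun m hmn => ?_⟩
  have h1 := hm m (hmn.trans (by push_cast; linarith [Int.natCast_nonneg n]))
  have h2 := h m
  have h3 : (1 : ℝ) / (((2 * n + 1 : ℕ) : ℝ) + 1) = 1 / (2 * (n + 1)) := by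
    push_cast
    congr 1
    ring
  rw [h3] at h1
  have h4 : (1 : ℝ) / (n + 1) = 1 / (2 * (n + 1)) + 1 / (2 * (n + 1)) := by
    have : (n : ℝ) + 1 ≠ 0 := by positivity
    field_simp
    norm_num
  calc ‖cavg (M q) (2 ^ q) m x - ∫ y, (fourier m y : ℂ) ∂ν‖
      = ‖(cavg (M q) (2 ^ q) m y - ∫ y, (fourier m y : ℂ) ∂ν) -
          (cavg (M q) (2 ^ q) m y - cavg (M q) (2 ^ q) m x)‖ := by
        congr 1
        ring
    _ ≤ _ := norm_sub_le _ _
    _ < 1 / (n + 1) := by rw [h4]; linarith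

lemma En_two (M : ℕ → ℕ) (hM : Tendsto M atTop atTop) (n : ℕ) (x : Tor) (hx : x ∈ En M n) :
    (2 : ℕ) • x ∈ En M (2 * n + 1) := by
  obtain ⟨Q, hQ⟩ := hx
  obtain ⟨Q', hQ'⟩ := (tendsto_atTop.mp hM (4 * (n + 1))).exists_forall_of_atTop
  refine ⟨max Q Q', fun q hq i hi hp => ?_⟩
  have hM4 := hQ' q ((le_max_right _ _).trans hq)
  apply hQ q ((le_max_left _ _).trans hq) i hi
  refine Ph_close M n q _ _ hp fun m => ?_
  rw [smul_comm]
  refine (cavg_two (M q) (2 ^ q) m (by omega) Nat.one_le_two_pow _).trans ?_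
  have h1 : (4 * (n + 1) : ℝ) ≤ M q := by exact_mod_cast hM4
  have h2 : (0 : ℝ) < 4 * (n + 1) := by positivity
  rw [div_le_div_iff₀ (by linarith) (by positivity)]
  linarith

lemma En_three (M : ℕ → ℕ) (hM : Tendsto M atTop atTop) (n : ℕ) (x : Tor) (hx : x ∈ En M n) :
    (3 : ℕ) • x ∈ En M (2 * n + 1) := by
  obtain ⟨Q, hQ⟩ := hx
  obtain ⟨Q', hQ'⟩ := (tendsto_atTop.mp hM 1).exists_forall_of_atTop
  refine ⟨max Q (max Q' (4 * (n + 1))), fun q hq i hi hp => ?_⟩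
  have hM4 := hQ' q ((le_max_left _ _).trans ((le_max_right _ _).trans hq))
  have hq2 : 4 * (n + 1) ≤ q := (le_max_right _ _).trans ((le_max_right _ _).trans hq)
  apply hQ q ((le_max_left _ _).trans hq) i hi
  refine Ph_close M n q _ _ hp fun m => ?_
  rw [smul_comm]
  refine (cavg_three (M q) (2 ^ q) m (by omega) Nat.one_le_two_pow _).trans ?_
  have h0 : 4 * (n + 1) ≤ 2 ^ q := hq2.trans Nat.lt_two_pow_self.le
  have h1 : (4 * (n + 1) : ℝ) ≤ ((2 ^ q : ℕ) : ℝ) := by exact_mod_cast h0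
  have h2 : (0 : ℝ) < 4 * (n + 1) := by positivity
  rw [div_le_div_iff₀ (by linarith) (by positivity)]
  linarith

end Helper75.LP
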