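import Mathlib
import Pool.Agent.Helper61.FR.St.P8
import Pool.Agent.Helper61.FR.St.P9
import Pool.Agent.Helper61.FR.St.P13
import Pool.Agent.Helper61.FR.Stage3
import Pool.Agent.Helper61.FR.Core
import Pool.Agent.Helper75.DF.St.D5
import Pool.Agent.Helper75.LP.Basic
import Pool.Agent.Helper75.LP.St.L6
import Pool.Agent.Helper75.LP.St.L7

/-!
# Lebesgue phases: the theorems for measures on the circle
-/

set_option autoImplicit false

open MeasureTheory Finset Filter Topology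

namespace Helper75.LP

open Pool.Agent.Helper61.FR Helper75.DF

/-- the sets of real numbers outside the phases -/
def GR (M : ℕ → ℕ) (n q : ℕ) : Set ℝ := {y | (y : Tor) ∉ Ph M n q}

lemma measurableSet_GR (M : ℕ → ℕ) (n q : ℕ) : MeasurableSet (GR M n q) :=
  measurable_coe_circle (isOpen_Ph M n q).measurableSet.compl

lemma coe_fract (x : ℝ) : ((Int.fract x : ℝ) : Tor) = (x : Tor) := by
  have h1 : (((⌊x⌋ : ℤ) : ℝ) : Tor) = 0 := by
    rw [AddCircle.coe_eq_zero_iff]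
    exact ⟨⌊x⌋, by simp⟩
  rw [Int.fract, AddCircle.coe_sub, h1, sub_zero]

lemma GR_fract (M : ℕ → ℕ) (n q : ℕ) (x : ℝ) : Int.fract x ∈ GR M n q ↔ x ∈ GR M n q := by
  unfold GR
  simp only [Set.mem_setOf_eq, coe_fract]

lemma coe_two_pow (i : ℕ) (y : ℝ) : ((2 ^ i * y : ℝ) : Tor) = (2 ^ i : ℕ) • (y : Tor) := by
  rw [← AddCircle.coe_nsmul, nsmul_eq_mul]
  push_cast
  rfl

/-- The not-both property of the sets `GR`. -/
lemma GR_det (M : ℕ → ℕ) (hM : Tendsto M atTop atTop) (n : ℕ) :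
    ∃ r : ℕ, ∀ q, r ≤ q → ∀ (n' : ℕ) (d : ℤ) (τ x : ℝ), M q + r ≤ n' → n' ≤ q + 2 → Odd d →
      |τ| * 3 ^ (2 ^ q) * 2 ^ n' ≤ 1 → x ∈ GR M n q → x + d / 2 ^ n' + τ ∈ GR M n q → False := by
  obtain ⟨r, hr⟩ := two_point M (fun q => 2 * q) hM (window_mul 2) n
  refine ⟨r + 2, fun q hq n' d τ x h1 h2 hd hτ hx hx' => ?_⟩
  rcases hr q (by omega) n' (by omega) (by show n' ≤ 2 * q; omega) d hd τ x hτ with h | h
  · exact hx h
  · exact hx' h

/-- If the measures of the phases of some level are summable with weights `2 ^ q / q` then there are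
atoms. -/
theorem not_summable_phases {μ : Measure Tor} [IsProbabilityMeasure μ]
    (h2 : MeasurePreserving (fun x : Tor => (2 : ℕ) • x) μ μ)
    (h3 : MeasurePreserving (fun x : Tor => (3 : ℕ) • x) μ μ) (h0 : ∀ x, μ {x} = 0) (M : ℕ → ℕ)
    (hM : Tendsto M atTop atTop) (hM8 : ∀ q, 8 * M q ≤ q) (n : ℕ) :
    ¬ Summable fun q : ℕ => (2 ^ q / q : ℝ) * μ.real (Ph M n q) := by
  intro hs
  obtain ⟨ρ, hρ, hρμ, hat⟩ := exists_inv23 μ h2 h3
  have := hρ.prob
  obtain ⟨r, hr⟩ := GR_det M hM n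
  have hreal : ∀ q, ρ.real (GR M n q)ᶜ = μ.real (Ph M n q) := by
    intro q
    rw [measureReal_def, measureReal_def, ← hρμ, Measure.map_apply measurable_coe_circle
      (isOpen_Ph M n q).measurableSet]
    congr 2
    ext x
    simp [GR]
  obtain ⟨N, hN⟩ := exists_tail hs (fun q => by positivity) (1 / 128) (by norm_num)
  refine false_of_arcs (hat h0) (stage3 hρ (N + r + 8 * r + 8) r M (by omega) (fun q hq => ?_)
    (GR M n) (measurableSet_GR M n) (GR_fract M n) (fun q hq => hr q (by omega)) fun Q => ?_)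
  · have := hM8 q
    omega
  · simp only [hreal]
    exact hN _ (by omega) Q

/-- A good set of measure close to one gives atoms. -/
theorem real_En_le {μ : Measure Tor} [IsProbabilityMeasure μ]
    (h2 : MeasurePreserving (fun x : Tor => (2 : ℕ) • x) μ μ)
    (h3 : MeasurePreserving (fun x : Tor => (3 : ℕ) • x) μ μ) (h0 : ∀ x, μ {x} = 0) (M : ℕ → ℕ)
    (hM : Tendsto M atTop atTop) (hM8 : ∀ q, 8 * M q ≤ q) (n : ℕ) :
    μ (En M n) ≤ ENNReal.ofReal (31 / 32) := by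
  by_contra h1
  rw [not_le] at h1
  obtain ⟨ρ, hρ, hρμ, hat⟩ := exists_inv23 μ h2 h3
  have := hρ.prob
  obtain ⟨r, hr⟩ := GR_det M hM n
  -- the good sets exhaust
  set Gd : ℕ → Set Tor := fun Q =>
    {x | ∀ q, Q ≤ q → ∀ i, i ≤ 2 ^ q → (2 ^ i : ℕ) • x ∉ Ph M n q} with hGd
  have hmono : Monotone Gd := by
    intro a b hab x hx q hq
    exact hx q (hab.trans hq)
  have hU : ⋃ Q, Gd Q = En M n := by
    ext x
    simp [hGd, En]
  have htend : Tendsto (fun Q => μ (Gd Q)) atTop (𝓝 (μ (En M n))) := by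
    have := tendsto_measure_iUnion_atTop (μ := μ) hmono
    rwa [hU] at this
  have h2' : ∀ᶠ Q in atTop, ENNReal.ofReal (31 / 32) < μ (Gd Q) :=
    htend.eventually (lt_mem_nhds h1)
  obtain ⟨Q, hQ⟩ := h2'.exists_forall_of_atTop
  set q₀ := Q + r + 8 * r + 8 with hq₀
  have hQ' := hQ q₀ (by omega)
  have hgood : ρ.real {x | ∀ q, q₀ ≤ q → ∀ i, i ≤ 2 ^ q → 2 ^ i * x ∈ GR M n q}ᶜ ≤ 1 / 32 := by
    have e1 : {x : ℝ | ∀ q, q₀ ≤ q → ∀ i, i ≤ 2 ^ q → 2 ^ i * x ∈ GR M n q} =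
        (fun y : ℝ => (y : Tor)) ⁻¹' (Gd q₀) := by
      ext x
      simp only [hGd, GR, Set.mem_setOf_eq, Set.mem_preimage, coe_two_pow]
    have hm : MeasurableSet (Gd q₀) := measurableSet_good M n q₀
    have e2 : ρ ((fun y : ℝ => (y : Tor)) ⁻¹' (Gd q₀)) = μ (Gd q₀) := by
      rw [← hρμ, Measure.map_apply measurable_coe_circle hm]
    rw [e1, measureReal_compl (measurable_coe_circle hm), probReal_univ]
    have e3 : 31 / 32 ≤ ρ.real ((fun y : ℝ => (y : Tor)) ⁻¹' (Gd q₀)) := by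
      rw [measureReal_def, e2]
      exact (ENNReal.ofReal_le_iff_le_toReal (measure_ne_top μ _)).mp hQ'.le
    linarith
  refine false_of_arcs (hat h0) (stage3' hρ q₀ r M (by omega) (fun q hq => ?_)
    (GR M n) (GR_fract M n) (fun q hq => hr q (by omega)) fun K => ?_)
  · have := hM8 q
    omega
  · exact past_general hρ (GR M n) (measurableSet_GR M n) (GR_fract M n) q₀ hgood K

/-- **Lebesgue phases.** -/
theorem ae_phases {μ : Measure Tor} [IsProbabilityMeasure μ]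
    (h2 : MeasurePreserving (fun x : Tor => (2 : ℕ) • x) μ μ)
    (h3 : MeasurePreserving (fun x : Tor => (3 : ℕ) • x) μ μ) (h0 : ∀ x, μ {x} = 0)
    (hE : ∀ A : Set Tor, MeasurableSet A → A ⊆ (fun x : Tor => (2 : ℕ) • x) ⁻¹' A →
      A ⊆ (fun x : Tor => (3 : ℕ) • x) ⁻¹' A → μ A = 0 ∨ μ A = 1) (M : ℕ → ℕ)
    (hM : Tendsto M atTop atTop) (hM8 : ∀ q, 8 * M q ≤ q) :
    ∀ᵐ x ∂μ, ∀ n Q : ℕ, ∃ q, Q ≤ q ∧ ∃ i, i ≤ 2 ^ q ∧ (2 ^ i : ℕ) • x ∈ Ph M n q := by
  set E : Set Tor := ⋃ n, En M n with hEdef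
  have hEm : MeasurableSet E := MeasurableSet.iUnion fun n => measurableSet_En M n
  have hmono : Monotone (En M) := fun a b hab => En_mono M hab
  have h4 : μ E = 0 ∨ μ E = 1 := by
    refine hE E hEm ?_ ?_
    · intro x hx
      obtain ⟨n, hn⟩ := Set.mem_iUnion.mp hx
      exact Set.mem_iUnion.mpr ⟨2 * n + 1, En_two M hM n x hn⟩
    · intro x hx
      obtain ⟨n, hn⟩ := Set.mem_iUnion.mp hx
      exact Set.mem_iUnion.mpr ⟨2 * n + 1, En_three M hM n x hn⟩
  have hE0 : μ E = 0 := by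
    rcases h4 with h4 | h4
    · exact h4
    exfalso
    have htend : Tendsto (fun n => μ (En M n)) atTop (𝓝 1) := by
      have := tendsto_measure_iUnion_atTop (μ := μ) hmono
      rwa [← hEdef, h4] at this
    have h6 : (1 : ENNReal) ≤ ENNReal.ofReal (31 / 32) :=
      le_of_tendsto htend (Eventually.of_forall fun n => real_En_le h2 h3 h0 M hM hM8 n)
    rw [← ENNReal.ofReal_one, ENNReal.ofReal_le_ofReal_iff (by norm_num)] at h6
    norm_num at h6
  have h5 : ∀ᵐ x ∂μ, x ∉ E := measure_eq_zero_iff_ae_notMem.mp hE0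
  filter_upwards [h5] with x hx n Q
  by_contra hcon
  push Not at hcon
  exact hx (Set.mem_iUnion.mpr ⟨n, Q, hcon⟩)

end Helper75.LP
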